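import Pool.Agent.W544.MO.HoB

/-! MO-HO: every short interval contains many hosts (Chebyshev-Ramachandra argument). -/

set_option autoImplicit false

namespace Pool.Agent.W544.MO

open Pool.Agent.W76.MO Finset Filter Topology
open scoped Classical

/-- a squarefree rough number with a large prime factor which is not a prime is a host -/
lemma host_of {ε γ : ℝ} {i n q : ℕ} (hn : Squarefree n) (hr : Rough ((2 : ℝ) ^ (γ * i)) n)
    (hq : q.Prime) (hqn : q ∣ n) (hq2 : (2 : ℝ) ^ ((1 / 2 + ε) * i) ≤ q) (hnp : ¬ n.Prime)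
    (hn0 : n ≠ 0) : HostNum ε γ i n := by
  obtain ⟨m, rfl⟩ := hqn
  have hm0 : m ≠ 0 := by
    rintro rfl
    exact hn0 (mul_zero q)
  refine ⟨m, q, mul_comm _ _, hq, hq2, ?_, hn.squarefree_of_dvd (dvd_mul_left m q),
    rough_dvd hr (dvd_mul_left m q)⟩
  rcases Nat.lt_or_ge 1 m with h | h
  · exact h
  · exfalso
    have : m = 1 := by omega
    rw [this, mul_one] at hnp
    exact hnp hq

lemma ns_num (i x : ℕ) (hx : x ≤ 4 * 2 ^ i) :
    ((2 ^ (i / 3) : ℕ) : ℝ) + (x : ℝ) / (((2 ^ (i / 3) : ℕ) : ℝ) * ((2 ^ (i / 3) : ℕ) : ℝ)) + 1 ≤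
      18 * (2 : ℝ) ^ ((i : ℝ) / 3) := by
  set B : ℕ := 2 ^ (i / 3) with hBdef
  have hB1 : 1 ≤ B := Nat.one_le_two_pow
  have hadd : ∀ x y : ℝ, (2 : ℝ) ^ (x + y) = 2 ^ x * 2 ^ y := fun x y => Real.rpow_add two_pos x y
  have hmono : ∀ x y : ℝ, x ≤ y → (2 : ℝ) ^ x ≤ 2 ^ y := fun x y hxy =>
    Real.rpow_le_rpow_of_exponent_le one_le_two hxy
  set u : ℝ := (2 : ℝ) ^ ((i : ℝ) / 3) with hu
  have hu1 : 1 ≤ u := Real.one_le_rpow one_le_two (by positivity)
  have t1 : (B : ℝ) ≤ u := by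
    rw [hBdef, hu]
    push_cast
    rw [← Real.rpow_natCast]
    refine hmono _ _ ?_
    have := @Nat.cast_div_le ℝ _ _ _ i 3
    push_cast at this
    exact this
  have t2 : u ≤ 2 * B := by
    rw [hBdef, hu]
    push_cast
    have : (2 : ℝ) * 2 ^ (i / 3) = (2 : ℝ) ^ ((i / 3 + 1 : ℕ) : ℝ) := by
      rw [Real.rpow_natCast, pow_succ]
      ring
    rw [this]
    refine hmono _ _ ?_
    have h3 : i < 3 * (i / 3 + 1) := Nat.lt_mul_div_succ i (by norm_num)
    have h4 : (i : ℝ) < 3 * ((i / 3 + 1 : ℕ) : ℝ) := by exact_mod_cast h3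
    linarith
  have t3 : u * u * u = (2 : ℝ) ^ i := by
    rw [hu, ← hadd, ← hadd, ← Real.rpow_natCast]
    congr 1
    ring
  have t4 : (x : ℝ) ≤ 4 * (u * u * u) := by
    rw [t3]
    exact_mod_cast hx
  have hBpos : (0 : ℝ) < B := by exact_mod_cast hB1
  have t5 : (x : ℝ) / (B * B) ≤ 16 * u := by
    rw [div_le_iff₀ (by positivity)]
    have t6 : u * u ≤ 4 * (B * B) := by nlinarith
    calc (x : ℝ) ≤ 4 * (u * u * u) := t4
      _ = 4 * u * (u * u) := by ring
      _ ≤ 4 * u * (4 * (B * B)) := mul_le_mul_of_nonneg_left t6 (by positivity)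
      _ = 16 * u * (B * B) := by ring
  linarith

theorem main : T_HO := by
  intro hB hMR0
  obtain ⟨s, hs, c0, hc0, z1, hz1, hFL⟩ := FL
  obtain ⟨CM, τ₁, hCM, hτ₁, hMR⟩ := hMR0
  obtain ⟨CB, hCB, iB, hiB, hBT⟩ := hB (1 / 4) (1 / 8) (by norm_num) (by norm_num)
  obtain ⟨K, hK0, hK⟩ := Pool.Agent.Helper112.LP.mertens_log
  have hs0 : (0 : ℝ) < s := by exact_mod_cast hs
  set ε : ℝ := min (min (c0 / (320 * CM)) (τ₁ / 2)) (1 / 40) with hε
  have hε0 : 0 < ε := lt_min (lt_min (by positivity) (by positivity)) (by norm_num)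
  have hε1 : ε ≤ c0 / (320 * CM) := (min_le_left _ _).trans (min_le_left _ _)
  have hε2 : ε ≤ τ₁ / 2 := (min_le_left _ _).trans (min_le_right _ _)
  have hε3 : ε ≤ 1 / 40 := min_le_right _ _
  set γ : ℝ := min (min (ε / (4 * s)) τ₁) (c0 / (100 * CB)) with hγ
  have hγ0 : 0 < γ := lt_min (lt_min (by positivity) hτ₁) (by positivity)
  have hγ1 : γ ≤ ε / (4 * s) := (min_le_left _ _).trans (min_le_left _ _)
  have hγ2 : γ ≤ τ₁ := (min_le_left _ _).trans (min_le_right _ _)
  have hγ3 : γ ≤ c0 / (100 * CB) := min_le_right _ _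
  refine ⟨ε, γ, c0 / (20 * γ), ε / 4, hε0, hγ0, by positivity, by positivity, ?_⟩
  intro δ hδ hδ'
  obtain ⟨i1, hi1, hMR1⟩ := hMR γ δ hγ0 hγ2 hδ (by linarith)
  have hlog2 : 0 < Real.log 2 := Real.log_pos (by norm_num)
  have hlog21 : Real.log 2 ≤ 1 := by
    have := Real.log_two_lt_d9
    linarith
  have E1 := ev_pow 0 z1 γ hγ0
  have E2 := ev_pow 0 (2 ^ (s + 1)) (ε / 2) (by positivity)
  have E3 := ev_pow 0 22 (3 / 4 * ε) (by positivity)
  have E4 : ∀ᶠ i : ℕ in atTop, K ≤ (ε * Real.log 2) * i := by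
    have h1 : Tendsto (fun i : ℕ => (ε * Real.log 2) * (i : ℝ)) atTop atTop :=
      tendsto_natCast_atTop_atTop.const_mul_atTop (by positivity)
    exact h1.eventually_ge_atTop K
  have E5 := ev_pow 1 (200 * γ / c0) γ hγ0
  have E6 := ev_pow 1 (3600 * γ / c0) (1 / 15) (by norm_num)
  have E7 : ∀ᶠ i : ℕ in atTop, 1 ≤ ε * (i : ℝ) := by
    have h1 : Tendsto (fun i : ℕ => ε * (i : ℝ)) atTop atTop :=
      tendsto_natCast_atTop_atTop.const_mul_atTop hε0
    exact h1.eventually_ge_atTop 1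
  have E8 : ∀ᶠ i : ℕ in atTop, 1 ≤ (τ₁ - ε) * (i : ℝ) := by
    have h1 : Tendsto (fun i : ℕ => (τ₁ - ε) * (i : ℝ)) atTop atTop :=
      tendsto_natCast_atTop_atTop.const_mul_atTop (by linarith)
    exact h1.eventually_ge_atTop 1
  obtain ⟨i0, hi0⟩ := eventually_atTop.1 (E1.and (E2.and (E3.and (E4.and (E5.and (E6.and
    (E7.and (E8.and (eventually_ge_atTop (max (max i1 iB) 100))))))))))
  refine ⟨max i0 1, le_max_right _ _, fun i hi a ha ha' => ?_⟩
  obtain ⟨e1, e2, e3, e4, e5, e6, e7, e8, e9⟩ := hi0 i ((le_max_left _ _).trans hi)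
  rw [pow_zero, mul_one] at e1 e2 e3
  rw [pow_one] at e5 e6
  have hi1' : i1 ≤ i := ((le_max_left _ _).trans (le_max_left _ _)).trans e9
  have hiB' : iB ≤ i := ((le_max_right _ _).trans (le_max_left _ _)).trans e9
  have hi100 : 100 ≤ i := (le_max_right _ _).trans e9
  have hi100r : (100 : ℝ) ≤ i := by exact_mod_cast hi100
  have hir : (0 : ℝ) < i := by linarith
  -- powers of two
  have hadd : ∀ x y : ℝ, (2 : ℝ) ^ (x + y) = 2 ^ x * 2 ^ y := fun x y => Real.rpow_add two_pos x y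
  have hmono : ∀ x y : ℝ, x ≤ y → (2 : ℝ) ^ x ≤ 2 ^ y := fun x y hxy =>
    Real.rpow_le_rpow_of_exponent_le one_le_two hxy
  have hposr : ∀ x : ℝ, (0 : ℝ) < (2 : ℝ) ^ x := fun x => Real.rpow_pos_of_pos two_pos x
  set r : ℝ := (2 : ℝ) ^ (γ * i) with hr
  have hr2 : 2 ≤ r := hz1.trans e1
  set h : ℕ := hh δ i with hh0
  have hδ2 : δ < 1 / 2 := by linarith
  have hhle : (h : ℝ) ≤ (2 : ℝ) ^ ((1 / 2 - δ) * i) := hh_le hδ2 i
  have hhge : (2 : ℝ) ^ ((1 / 2 - δ) * i - 1) ≤ (h : ℝ) := hh_ge δ i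
  have hhge' : (2 : ℝ) ^ ((1 / 2 - δ) * i) ≤ 2 * (h : ℝ) := by
    have : (2 : ℝ) ^ ((1 / 2 - δ) * i) = 2 ^ ((1 / 2 - δ) * i - 1) * 2 := by
      rw [show (1 / 2 - δ) * (i : ℝ) = (1 / 2 - δ) * i - 1 + 1 by ring, hadd, Real.rpow_one]
      ring_nf
    rw [this]
    linarith
  have hhpos : (0 : ℝ) < h := by exact_mod_cast hh_pos δ i
  obtain ⟨V, hV, hVlow, hFLV⟩ := hFL r e1
  have hlogr : Real.log r = γ * i * Real.log 2 := by
    rw [hr, Real.log_rpow two_pos]
  have hV2 : c0 / (γ * i) ≤ V := by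
    refine le_trans ?_ hVlow
    rw [hlogr]
    refine div_le_div_of_nonneg_left hc0.le (by positivity) ?_
    exact mul_le_of_le_one_right (by positivity) hlog21
  set W : ℝ := V * h with hW
  have hW0 : 0 < W := mul_pos hV hhpos
  have hW1 : c0 / (γ * i) * h ≤ W := mul_le_mul_of_nonneg_right hV2 hhpos.le
  -- the small primes
  set P1 : ℕ := ⌊(2 : ℝ) ^ ((1 / 2 - ε) * i)⌋₊ with hP1
  have hexp0 : 0 ≤ (1 / 2 - ε) * (i : ℝ) := mul_nonneg (by linarith) hir.le
  have hP1one : (1 : ℝ) ≤ (2 : ℝ) ^ ((1 / 2 - ε) * i) := Real.one_le_rpow one_le_two hexp0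
  have hP11 : 1 ≤ P1 := Nat.le_floor (by exact_mod_cast hP1one)
  have hP1le : (P1 : ℝ) ≤ (2 : ℝ) ^ ((1 / 2 - ε) * i) := Nat.floor_le (hposr _).le
  have hkey : (2 : ℝ) ^ ((1 / 2 - ε / 4) * i) ≤ 2 * h := by
    refine le_trans (hmono _ _ ?_) hhge'
    exact mul_le_mul_of_nonneg_right (by linarith) hir.le
  have hc1 : (r + 1) ^ s * P1 ≤ h := by
    have g1 : (r + 1) ^ s ≤ 2 ^ s * (2 : ℝ) ^ (ε / 4 * i) := by
      have g2 : (r + 1) ^ s ≤ (2 * r) ^ s := pow_le_pow_left₀ (by positivity) (by linarith) s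
      have g3 : r ^ s = (2 : ℝ) ^ (γ * i * s) := by
        rw [hr, ← Real.rpow_natCast, ← Real.rpow_mul zero_le_two]
      rw [mul_pow, g3] at g2
      refine g2.trans (mul_le_mul_of_nonneg_left (hmono _ _ ?_) (by positivity))
      have g4 : γ * s ≤ ε / 4 := by
        have := mul_le_mul_of_nonneg_right hγ1 hs0.le
        rwa [show ε / (4 * (s : ℝ)) * s = ε / 4 by field_simp] at this
      calc γ * i * s = γ * s * i := by ring
        _ ≤ ε / 4 * i := mul_le_mul_of_nonneg_right g4 hir.le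
    have g5 : (2 : ℝ) ^ (s + 1) * (2 : ℝ) ^ (ε / 4 * i) * (2 : ℝ) ^ ((1 / 2 - ε) * i) ≤ 2 * h := by
      refine le_trans ?_ hkey
      calc (2 : ℝ) ^ (s + 1) * (2 : ℝ) ^ (ε / 4 * i) * (2 : ℝ) ^ ((1 / 2 - ε) * i) ≤
            (2 : ℝ) ^ (ε / 2 * i) * (2 : ℝ) ^ (ε / 4 * i) * (2 : ℝ) ^ ((1 / 2 - ε) * i) :=
            mul_le_mul_of_nonneg_right (mul_le_mul_of_nonneg_right e2 (hposr _).le) (hposr _).le
        _ = (2 : ℝ) ^ ((1 / 2 - ε / 4) * i) := by
            rw [← hadd, ← hadd]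
            congr 1
            ring
    have g6 : (r + 1) ^ s * P1 ≤
        2 ^ s * (2 : ℝ) ^ (ε / 4 * i) * (2 : ℝ) ^ ((1 / 2 - ε) * i) :=
      mul_le_mul g1 hP1le (Nat.cast_nonneg _) (by positivity)
    rw [pow_succ] at g5
    linarith
  have hc2 : 11 * (P1 : ℝ) ≤ h := by
    have g5 : 22 * (2 : ℝ) ^ ((1 / 2 - ε) * i) ≤ 2 * h := by
      refine le_trans ?_ hkey
      calc 22 * (2 : ℝ) ^ ((1 / 2 - ε) * i) ≤
            (2 : ℝ) ^ (3 / 4 * ε * i) * (2 : ℝ) ^ ((1 / 2 - ε) * i) :=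
            mul_le_mul_of_nonneg_right e3 (hposr _).le
        _ = (2 : ℝ) ^ ((1 / 2 - ε / 4) * i) := by
            rw [← hadd]
            congr 1
            ring
    linarith
  set I := Ioc a (a + h) with hI
  set T := I.filter (fun n => Squarefree n ∧ Rough r n) with hT
  set R := I.filter (fun n => Rough r n) with hR
  -- the size of the elements
  have hh2i : h ≤ 2 ^ i := by
    have g1 : (h : ℝ) ≤ (2 : ℝ) ^ (i : ℝ) := by
      refine hhle.trans (hmono _ _ ?_)
      nlinarith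
    rw [Real.rpow_natCast] at g1
    exact_mod_cast g1
  have hsize : ∀ n ∈ I, 2 ^ i < n ∧ n ≤ 2 ^ (i + 2) := by
    intro n hn
    rw [hI, mem_Ioc] at hn
    have g1 : 2 ^ (i + 1) = 2 * 2 ^ i := by rw [pow_succ]; ring
    have g2 : 2 ^ (i + 2) = 4 * 2 ^ i := by rw [pow_add]; norm_num; ring
    rw [g1] at ha'
    rw [g2]
    omega
  have hlogn : ∀ n ∈ I, i * Real.log 2 ≤ Real.log n ∧ Real.log n ≤ (i + 2) * Real.log 2 := by
    intro n hn
    obtain ⟨g1, g2⟩ := hsize n hn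
    have g3 : ((2 : ℝ) ^ i) ≤ n := by exact_mod_cast g1.le
    have g4 : (n : ℝ) ≤ (2 : ℝ) ^ (i + 2) := by exact_mod_cast g2
    constructor
    · have := Real.log_le_log (by positivity) g3
      rwa [Real.log_pow] at this
    · have := Real.log_le_log (lt_of_lt_of_le (by positivity) g3) g4
      rw [Real.log_pow] at this
      push_cast at this
      exact this
  have hTI : ∀ n ∈ T, n ∈ I ∧ Squarefree n ∧ Rough r n := by
    intro n hn
    rw [hT, mem_filter] at hn
    exact hn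
  -- lower bound of the number of rough numbers
  have hRlow : 9 / 10 * W ≤ (R.card : ℝ) := by
    have g0 : (r + 1) ^ s ≤ (h : ℝ) := by
      refine le_trans ?_ hc1
      exact le_mul_of_one_le_right (by positivity) (by exact_mod_cast hP11)
    have g1 := (abs_le.1 (hFLV a h g0)).1
    rw [← hI, ← hR, ← hW] at g1
    linarith
  -- numbers which are not squarefree
  have hNS : (R.card : ℝ) ≤ T.card + W / 50 := by
    set B : ℕ := 2 ^ (i / 3) with hBdef
    have hB1 : 1 ≤ B := Nat.one_le_two_pow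
    have hz : 1 ≤ ⌈r⌉₊ := Nat.one_le_iff_ne_zero.2 (by
      have : 0 < ⌈r⌉₊ := Nat.ceil_pos.2 (by linarith)
      omega)
    have hhh : h * h ≤ a := by
      have g1 : (h : ℝ) * h ≤ (2 : ℝ) ^ (i : ℝ) := by
        calc (h : ℝ) * h ≤ (2 : ℝ) ^ ((1 / 2 - δ) * i) * (2 : ℝ) ^ ((1 / 2 - δ) * i) :=
              mul_le_mul hhle hhle hhpos.le (hposr _).le
          _ = (2 : ℝ) ^ ((1 - 2 * δ) * i) := by
              rw [← hadd]
              congr 1
              ring
          _ ≤ (2 : ℝ) ^ (i : ℝ) := hmono _ _ (by nlinarith)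
      rw [Real.rpow_natCast] at g1
      have g2 : h * h ≤ 2 ^ i := by exact_mod_cast g1
      exact g2.trans ha
    have g1 := nonsq_card a h B ⌈r⌉₊ hz hB1 hhh
    have g2 : (R.card : ℝ) ≤ T.card +
        (((Ioc a (a + h)).filter (fun n => ∃ p, ⌈r⌉₊ ≤ p ∧ p * p ∣ n)).card : ℝ) := by
      have : R ⊆ T ∪ (Ioc a (a + h)).filter (fun n => ∃ p, ⌈r⌉₊ ≤ p ∧ p * p ∣ n) := by
        intro n hn
        rw [hR, mem_filter] at hn
        rw [mem_union, hT, mem_filter, mem_filter]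
        by_cases hsq : Squarefree n
        · exact Or.inl ⟨hn.1, hsq, hn.2⟩
        · right
          rw [Nat.squarefree_iff_prime_squarefree] at hsq
          push Not at hsq
          obtain ⟨p, hp, hpp⟩ := hsq
          exact ⟨hn.1, p, Nat.ceil_le.2 (hn.2 p hp ((dvd_mul_right p p).trans hpp)), hpp⟩
      have := (card_le_card this).trans (card_union_le _ _)
      exact_mod_cast this
    have g3 : 2 * (h : ℝ) / (⌈r⌉₊ : ℕ) ≤ W / 100 := by
      have t1 : 2 * (h : ℝ) / (⌈r⌉₊ : ℕ) ≤ 2 * h / r :=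
        div_le_div_of_nonneg_left (by positivity) (by linarith) (Nat.le_ceil r)
      refine t1.trans (le_trans ?_ (div_le_div_of_nonneg_right hW1 (by norm_num)))
      rw [div_le_iff₀ (by linarith)]
      have t2 : 200 * γ / c0 * i ≤ r := e5
      have t3 : (2 : ℝ) * h = c0 / (γ * i) * h / 100 * (200 * γ / c0 * i) := by
        field_simp
        norm_num
      rw [t3]
      exact mul_le_mul_of_nonneg_left t2 (by positivity)
    have g4 : (B : ℝ) + ((a + h : ℕ) : ℝ) / (B * B) + 1 ≤ W / 100 := by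
      set u : ℝ := (2 : ℝ) ^ ((i : ℝ) / 3) with hu
      have t7 : (B : ℝ) + ((a + h : ℕ) : ℝ) / (B * B) + 1 ≤ 18 * u := by
        refine ns_num i (a + h) ?_
        have g1 : 2 ^ (i + 1) = 2 * 2 ^ i := by rw [pow_succ]; ring
        omega
      refine t7.trans (le_trans ?_ (div_le_div_of_nonneg_right hW1 (by norm_num)))
      -- `h ≥ 2 ^ (0.4 i) / 2`
      have t8 : (2 : ℝ) ^ (2 / 5 * (i : ℝ)) ≤ 2 * h := by
        refine le_trans (hmono _ _ ?_) hhge'
        exact mul_le_mul_of_nonneg_right (by linarith) hir.le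
      have t9 : 3600 * γ / c0 * i * u ≤ 2 * h := by
        refine le_trans ?_ t8
        calc 3600 * γ / c0 * i * u ≤ (2 : ℝ) ^ (1 / 15 * (i : ℝ)) * u :=
              mul_le_mul_of_nonneg_right e6 (by positivity)
          _ = (2 : ℝ) ^ (2 / 5 * (i : ℝ)) := by
              rw [hu, ← hadd]
              congr 1
              ring
      have t10 : 18 * u = c0 / (γ * i) * (3600 * γ / c0 * i * u / 2) / 100 := by
        clear_value u
        clear hBT hMR hMR1 hFL hK hi0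
        field_simp
        ring
      rw [t10]
      refine div_le_div_of_nonneg_right (mul_le_mul_of_nonneg_left ?_ (by positivity))
        (by norm_num)
      linarith
    linarith
  have hTlow : 88 / 100 * W ≤ (T.card : ℝ) := by linarith
  -- the three sums
  set P2 : ℝ := (2 : ℝ) ^ ((1 / 2 + ε) * i) with hP2
  set Tb := T.filter (fun n => ∃ q : ℕ, q ∈ n.primeFactors ∧ P2 ≤ (q : ℝ)) with hTb
  have hD : ∑ n ∈ T, ∑ p ∈ n.primeFactors.filter (fun p => p ≤ P1), Real.log (p : ℝ) ≤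
      3 / 5 * W * (i * Real.log 2) := by
    have g1 := small_sum hV hFLV T (fun n hn => ⟨(hTI n hn).1, (hTI n hn).2.2⟩) P1 hP11
      (by linarith) hc1 hc2 hK
    have g2 : Real.log P1 ≤ (1 / 2 - ε) * i * Real.log 2 := by
      have := Real.log_le_log (by exact_mod_cast hP11) hP1le
      rwa [Real.log_rpow two_pos] at this
    have g3 : Real.log P1 + K ≤ 1 / 2 * (i * Real.log 2) := by
      have : (1 / 2 - ε) * i * Real.log 2 + ε * Real.log 2 * i = 1 / 2 * (i * Real.log 2) := by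
        ring
      linarith
    calc _ ≤ 6 / 5 * V * h * (Real.log P1 + K) := g1
      _ ≤ 6 / 5 * V * h * (1 / 2 * (i * Real.log 2)) :=
          mul_le_mul_of_nonneg_left g3 (by positivity)
      _ = 3 / 5 * W * (i * Real.log 2) := by rw [hW]; ring
  have hE : ∑ n ∈ T, ∑ p ∈ n.primeFactors.filter (fun p => P1 < p ∧ (p : ℝ) < P2),
      Real.log (p : ℝ) ≤ 1 / 20 * W * (i * Real.log 2) := by
    set lo := ⌊(1 / 2 - ε) * (i : ℝ)⌋₊ with hlo
    set hi' := ⌊(1 / 2 + ε) * (i : ℝ)⌋₊ with hhi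
    have hexp1 : 0 ≤ (1 / 2 + ε) * (i : ℝ) := by positivity
    have hlo1 := Nat.lt_floor_add_one ((1 / 2 - ε) * (i : ℝ))
    have hhi1 : (hi' : ℝ) ≤ (1 / 2 + ε) * i := Nat.floor_le hexp1
    rw [← hlo] at hlo1
    have hlohi : lo ≤ hi' := Nat.floor_mono (mul_le_mul_of_nonneg_right (by linarith) hir.le)
    have hcast : ∀ j : ℕ, (((2 : ℕ) ^ j : ℕ) : ℝ) = (2 : ℝ) ^ (j : ℝ) := fun j => by
      push_cast
      rw [Real.rpow_natCast]
    have g1 := mid_sum (r := r) (a := a) (h := h) (i := i) T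
      (fun n hn => ⟨(hTI n hn).1, (hTI n hn).2.2, (hsize n (hTI n hn).1).2⟩) lo hi'
      (M := CM * h / (γ * (i : ℝ) ^ 2)) (fun p => P1 < p ∧ (p : ℝ) < P2) ?_ ?_
    · have g2 : ((Icc lo hi').card : ℝ) ≤ 4 * ε * i := by
        rw [Nat.card_Icc, Nat.cast_sub (by omega)]
        push_cast
        linarith
      have g3 : 8 * ε * CM ≤ 1 / 20 * c0 := by
        have := mul_le_mul_of_nonneg_right hε1 (show (0 : ℝ) ≤ 8 * CM by positivity)
        rw [show c0 / (320 * CM) * (8 * CM) = c0 / 40 by field_simp; norm_num] at this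
        linarith
      calc _ ≤ ((i + 2) * Real.log 2) * (((Icc lo hi').card : ℝ) * (CM * h / (γ * (i : ℝ) ^ 2))) :=
            g1
        _ ≤ ((2 * i) * Real.log 2) * ((4 * ε * i) * (CM * h / (γ * (i : ℝ) ^ 2))) := by
            gcongr
            linarith
        _ = (8 * ε * CM) * (1 / (γ * i) * h * (i * Real.log 2)) := by
            field_simp
            ring
        _ ≤ (1 / 20 * c0) * (1 / (γ * i) * h * (i * Real.log 2)) :=
            mul_le_mul_of_nonneg_right g3 (by positivity)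
        _ = 1 / 20 * (c0 / (γ * i) * h) * (i * Real.log 2) := by ring
        _ ≤ 1 / 20 * W * (i * Real.log 2) := by
            refine mul_le_mul_of_nonneg_right ?_ (by positivity)
            linarith
    · -- dyadic ranges
      rintro p hp ⟨hp1, hp2⟩
      have hp2' : 2 ≤ p := hp.two_le
      have k1 : 2 ^ Nat.log 2 (p - 1) ≤ p - 1 := Nat.pow_log_le_self 2 (by omega)
      have k2 : p - 1 < 2 ^ (Nat.log 2 (p - 1) + 1) := Nat.lt_pow_succ_log_self (by norm_num) _
      set j := Nat.log 2 (p - 1) with hj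
      have k3 : 2 ^ j < p := by omega
      have k4 : p ≤ 2 ^ (j + 1) := by omega
      refine ⟨j, ?_, k3, k4⟩
      rw [mem_Icc]
      constructor
      · have k5 : (2 : ℝ) ^ ((1 / 2 - ε) * i) < p := Nat.lt_of_floor_lt hp1
        have k6 : (2 : ℝ) ^ ((1 / 2 - ε) * i) < (2 : ℝ) ^ ((j + 1 : ℕ) : ℝ) := by
          refine lt_of_lt_of_le k5 ?_
          rw [← hcast]
          exact_mod_cast k4
        rw [Real.rpow_lt_rpow_left_iff one_lt_two] at k6
        have k7 := (Nat.floor_lt hexp0).2 k6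
        omega
      · have k5 : (2 : ℝ) ^ (j : ℝ) < (2 : ℝ) ^ ((1 / 2 + ε) * i) := by
          refine lt_trans ?_ hp2
          rw [← hcast]
          exact_mod_cast k3
        rw [Real.rpow_lt_rpow_left_iff one_lt_two] at k5
        exact Nat.le_floor k5.le
    · intro j hj
      rw [mem_Icc] at hj
      have k1 : (lo : ℝ) ≤ j := by exact_mod_cast hj.1
      have k2 : (j : ℝ) ≤ hi' := by exact_mod_cast hj.2
      refine hMR1 i hi1' a (2 ^ j) ha ha' ?_ ?_
      · rw [hcast]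
        refine hmono _ _ ?_
        have : (1 / 2 - τ₁) * (i : ℝ) = (1 / 2 - ε) * i - (τ₁ - ε) * i := by ring
        rw [this]
        linarith
      · rw [hcast]
        refine hmono _ _ (k2.trans (hhi1.trans ?_))
        exact mul_le_mul_of_nonneg_right (by linarith) hir.le
  have hBig : ∑ n ∈ T, ∑ p ∈ n.primeFactors.filter (fun p : ℕ => P2 ≤ (p : ℝ)),
      Real.log (p : ℝ) ≤ (Tb.card : ℝ) * ((i + 2) * Real.log 2) := by
    have g1 : ∀ n ∈ T, ∑ p ∈ n.primeFactors.filter (fun p : ℕ => P2 ≤ (p : ℝ)),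
        Real.log (p : ℝ) ≤ if ∃ q : ℕ, q ∈ n.primeFactors ∧ P2 ≤ (q : ℝ) then
          ((i + 2) * Real.log 2) else 0 := by
      intro n hn
      split_ifs with hex
      · refine le_trans ?_ (hlogn n (hTI n hn).1).2
        rw [log_sqfree (hTI n hn).2.1]
        exact sum_le_sum_of_subset_of_nonneg (filter_subset _ _)
          (fun p _ _ => Real.log_natCast_nonneg p)
      · refine le_of_eq (sum_eq_zero ?_)
        intro p hp
        rw [mem_filter] at hp
        exact absurd ⟨p, hp.1, hp.2⟩ hex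
    refine (sum_le_sum g1).trans (le_of_eq ?_)
    rw [← sum_filter, sum_const, nsmul_eq_mul]
  have hsum : (T.card : ℝ) * (i * Real.log 2) ≤
      3 / 5 * W * (i * Real.log 2) + 1 / 20 * W * (i * Real.log 2) +
        (Tb.card : ℝ) * ((i + 2) * Real.log 2) := by
    have g1 : (T.card : ℝ) * (i * Real.log 2) ≤ ∑ n ∈ T, Real.log (n : ℝ) := by
      rw [← nsmul_eq_mul]
      exact card_nsmul_le_sum _ _ _ (fun n hn => (hlogn n (hTI n hn).1).1)
    have g2 : ∑ n ∈ T, Real.log (n : ℝ) ≤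
        ∑ n ∈ T, (∑ p ∈ n.primeFactors.filter (fun p => p ≤ P1), Real.log (p : ℝ) +
          ∑ p ∈ n.primeFactors.filter (fun p => P1 < p ∧ (p : ℝ) < P2), Real.log (p : ℝ) +
          ∑ p ∈ n.primeFactors.filter (fun p : ℕ => P2 ≤ (p : ℝ)), Real.log (p : ℝ)) := by
      refine sum_le_sum fun n hn => ?_
      rw [log_sqfree (hTI n hn).2.1, sum_filter, sum_filter, sum_filter, ← sum_add_distrib,
        ← sum_add_distrib]
      refine sum_le_sum fun p _ => ?_
      have hp0 := Real.log_natCast_nonneg p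
      by_cases k1 : p ≤ P1
      · rw [if_pos k1]
        split_ifs <;> linarith
      · by_cases k2 : (p : ℝ) < P2
        · rw [if_neg k1, if_pos (⟨not_le.1 k1, k2⟩ : P1 < p ∧ (p : ℝ) < P2)]
          split_ifs <;> linarith
        · rw [if_neg k1, if_pos (not_lt.1 k2)]
          split_ifs <;> linarith
    rw [sum_add_distrib, sum_add_distrib] at g2
    linarith
  have hTb1 : 1 / 5 * W ≤ (Tb.card : ℝ) := by
    have g1 : 88 / 100 * W * (i * Real.log 2) ≤ (T.card : ℝ) * (i * Real.log 2) :=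
      mul_le_mul_of_nonneg_right hTlow (by positivity)
    have g2 : 23 / 100 * W * i * Real.log 2 ≤ (Tb.card : ℝ) * (i + 2) * Real.log 2 := by
      linarith
    have g3 := le_of_mul_le_mul_right g2 hlog2
    have g4 : (Tb.card : ℝ) * (i + 2) ≤ (Tb.card : ℝ) * (51 / 50 * i) :=
      mul_le_mul_of_nonneg_left (by linarith) (Nat.cast_nonneg _)
    have g5 : 23 / 100 * W * i ≤ 51 / 50 * (Tb.card : ℝ) * i := by linarith
    have g6 := le_of_mul_le_mul_right g5 hir
    linarith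
  -- primes
  have hPr : ((I.filter Nat.Prime).card : ℝ) ≤ W / 50 := by
    have g1 : I.filter Nat.Prime ⊆ I.filter (fun n => Rough ((2 : ℝ) ^ (1 / 4 * (i : ℝ))) n) := by
      intro p hp
      rw [mem_filter] at hp ⊢
      refine ⟨hp.1, ?_⟩
      intro q hq hqp
      rw [(Nat.prime_dvd_prime_iff_eq hq hp.2).1 hqp]
      have k1 := (hsize p hp.1).1
      have k2 : ((2 : ℝ) ^ i) ≤ p := by exact_mod_cast k1.le
      refine le_trans ?_ k2
      rw [← Real.rpow_natCast]
      exact hmono _ _ (by linarith)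
    have g2 : (2 : ℝ) ^ (1 / 8 * (i : ℝ)) ≤ h := by
      refine le_trans (hmono _ _ ?_) hhge
      nlinarith
    have g3 := hBT i hiB' a h g2
    have g4 : ((I.filter Nat.Prime).card : ℝ) ≤ CB * h / i := by
      refine le_trans ?_ g3
      exact_mod_cast card_le_card g1
    refine g4.trans ?_
    have g5 : 100 * CB ≤ c0 / γ := by
      rw [le_div_iff₀ hγ0]
      have := mul_le_mul_of_nonneg_right hγ3 (show (0 : ℝ) ≤ 100 * CB by positivity)
      rw [div_mul_cancel₀ _ (by positivity)] at this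
      linarith
    calc CB * h / i = CB * (h / i) := by ring
      _ ≤ (c0 / γ / 100) * (h / i) := mul_le_mul_of_nonneg_right (by linarith) (by positivity)
      _ = c0 / (γ * i) * h / 100 := by field_simp
      _ ≤ W / 50 := by linarith
  -- conclusion
  have hfin : (Tb.card : ℝ) ≤ ((I.filter (HostNum ε γ i)).card : ℝ) +
      ((I.filter Nat.Prime).card : ℝ) := by
    have : Tb ⊆ I.filter (HostNum ε γ i) ∪ I.filter Nat.Prime := by
      intro n hn
      rw [hTb, mem_filter] at hn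
      obtain ⟨hn1, q, hq, hq2⟩ := hn
      obtain ⟨k1, k2, k3⟩ := hTI n hn1
      rw [Nat.mem_primeFactors] at hq
      rw [mem_union, mem_filter, mem_filter]
      by_cases hnp : n.Prime
      · exact Or.inr ⟨k1, hnp⟩
      · exact Or.inl ⟨k1, host_of k2 k3 hq.1 hq.2.1 hq2 hnp hq.2.2⟩
    have := (card_le_card this).trans (card_union_le _ _)
    exact_mod_cast this
  have hgoal : c0 / (20 * γ) * h / i ≤ W / 20 := by
    calc c0 / (20 * γ) * h / i = c0 / (γ * i) * h / 20 := by field_simp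
      _ ≤ W / 20 := by linarith
  linarith

end Pool.Agent.W544.MO
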