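import Pool.Agent.W76.MO.Stmts
import Pool.Agent.H154R3.Task469B
import Pool.Agent.Helper112.Lp.MertensLog

/-! MO-HO, part A: elementary lemmas. -/

set_option autoImplicit false

namespace Pool.Agent.W544.MO

open Pool.Agent.W76.MO Finset Filter Topology
open scoped Classical

lemma hh_le {δ : ℝ} (hδ : δ < 1 / 2) (i : ℕ) : (hh δ i : ℝ) ≤ (2 : ℝ) ^ ((1 / 2 - δ) * i) := by
  unfold hh
  have h0 : 0 ≤ (1 / 2 - δ) * (i : ℝ) := mul_nonneg (by linarith) (Nat.cast_nonneg i)
  push_cast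
  rw [← Real.rpow_natCast]
  exact Real.rpow_le_rpow_of_exponent_le one_le_two (Nat.floor_le h0)

lemma hh_ge (δ : ℝ) (i : ℕ) : (2 : ℝ) ^ ((1 / 2 - δ) * i - 1) ≤ (hh δ i : ℝ) := by
  unfold hh
  push_cast
  rw [← Real.rpow_natCast]
  refine Real.rpow_le_rpow_of_exponent_le one_le_two ?_
  have := Nat.lt_floor_add_one ((1 / 2 - δ) * (i : ℝ))
  linarith

lemma hh_pos (δ : ℝ) (i : ℕ) : 0 < hh δ i := by
  unfold hh
  positivity

lemma ev_pow (K : ℕ) (C ε : ℝ) (hε : 0 < ε) :
    ∀ᶠ i : ℕ in atTop, C * (i : ℝ) ^ K ≤ (2 : ℝ) ^ (ε * i) := by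
  have h1 : (1 : ℝ) < 2 ^ ε := Real.one_lt_rpow one_lt_two hε
  have h2 := tendsto_pow_const_div_const_pow_of_one_lt K h1
  have h3 : Tendsto (fun n : ℕ => C * ((n : ℝ) ^ K / ((2 : ℝ) ^ ε) ^ n)) atTop (𝓝 (C * 0)) :=
    h2.const_mul C
  rw [mul_zero] at h3
  filter_upwards [h3.eventually_lt_const one_pos] with i hi
  have h4 : (2 : ℝ) ^ (ε * i) = ((2 : ℝ) ^ ε) ^ i := by
    rw [Real.rpow_mul zero_le_two, Real.rpow_natCast]
  have h5 : (0 : ℝ) < ((2 : ℝ) ^ ε) ^ i := by positivity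
  rw [h4]
  rw [← mul_div_assoc, div_lt_one h5] at hi
  exact hi.le

/-- multiples of `p` in an interval -/
lemma mult_card (a h p : ℕ) (hp : 1 ≤ p) (P : ℕ → Prop) :
    ((Ioc a (a + h)).filter (fun n => p ∣ n ∧ P n)).card ≤
      ((Ioc (a / p) (a / p + (h / p + 1))).filter (fun m => P (p * m))).card := by
  refine Finset.card_le_card_of_injOn (fun n => n / p) ?_ ?_
  · intro n hn
    simp only [coe_filter, mem_Ioc, Set.mem_ofPred_eq] at hn ⊢
    obtain ⟨⟨h1, h2⟩, ⟨m, rfl⟩, h3⟩ := hn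
    rw [Nat.mul_div_cancel_left _ hp]
    refine ⟨⟨Nat.div_lt_of_lt_mul h1, ?_⟩, h3⟩
    have e1 : a < p * (a / p + 1) := Nat.lt_mul_div_succ a hp
    have e2 : h < p * (h / p + 1) := Nat.lt_mul_div_succ h hp
    have e3 : p * m < p * (a / p + 1 + (h / p + 1)) := by
      rw [mul_add]; omega
    have e4 := Nat.lt_of_mul_lt_mul_left e3
    omega
  · intro n hn n' hn' heq
    simp only [coe_filter, mem_Ioc, Set.mem_ofPred_eq] at hn hn'
    obtain ⟨-, ⟨m, rfl⟩, -⟩ := hn
    obtain ⟨-, ⟨m', rfl⟩, -⟩ := hn'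
    simp only at heq
    rw [Nat.mul_div_cancel_left _ hp, Nat.mul_div_cancel_left _ hp] at heq
    rw [heq]

lemma mult_card' (a h p : ℕ) (hp : 1 ≤ p) :
    (((Ioc a (a + h)).filter (fun n => p ∣ n)).card : ℝ) ≤ (h : ℝ) / p + 1 := by
  have h1 : ((Ioc a (a + h)).filter (fun n => p ∣ n)).card ≤ h / p + 1 := by
    have hc : (Ioc (a / p) (a / p + (h / p + 1))).card = h / p + 1 := by
      rw [Nat.card_Ioc]
      exact Nat.add_sub_cancel_left _ _
    rw [← hc]
    refine Finset.card_le_card_of_injOn (fun n => n / p) ?_ ?_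
    · intro n hn
      simp only [coe_filter, mem_Ioc, Set.mem_ofPred_eq, coe_Ioc, Set.mem_Ioc] at hn ⊢
      obtain ⟨⟨h1, h2⟩, ⟨m, rfl⟩⟩ := hn
      rw [Nat.mul_div_cancel_left _ hp]
      refine ⟨Nat.div_lt_of_lt_mul h1, ?_⟩
      have e1 : a < p * (a / p + 1) := Nat.lt_mul_div_succ a hp
      have e2 : h < p * (h / p + 1) := Nat.lt_mul_div_succ h hp
      have e3 : p * m < p * (a / p + 1 + (h / p + 1)) := by
        rw [mul_add]; omega
      have e4 := Nat.lt_of_mul_lt_mul_left e3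
      omega
    · intro n hn n' hn' heq
      simp only [coe_filter, mem_Ioc, Set.mem_ofPred_eq] at hn hn'
      obtain ⟨-, ⟨m, rfl⟩⟩ := hn
      obtain ⟨-, ⟨m', rfl⟩⟩ := hn'
      simp only at heq
      rw [Nat.mul_div_cancel_left _ hp, Nat.mul_div_cancel_left _ hp] at heq
      rw [heq]
  calc (((Ioc a (a + h)).filter (fun n => p ∣ n)).card : ℝ) ≤ ((h / p + 1 : ℕ) : ℝ) := by
        exact_mod_cast h1
    _ ≤ (h : ℝ) / p + 1 := by
        push_cast
        have := @Nat.cast_div_le ℝ _ _ _ h p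
        linarith

lemma rough_dvd {z : ℝ} {n m : ℕ} (h : Rough z n) (hm : m ∣ n) : Rough z m :=
  fun p hp hpm => h p hp (hpm.trans hm)

lemma rough_iff {r : ℝ} {n : ℕ} : Rough r n ↔ ∀ p : ℕ, p.Prime → p < ⌈r⌉₊ → ¬ p ∣ n := by
  constructor
  · intro h p hp hlt hd
    rw [Nat.lt_ceil] at hlt
    exact absurd (h p hp hd) (not_le.2 hlt)
  · intro h p hp hd
    by_contra hn
    exact h p hp (Nat.lt_ceil.2 (not_le.1 hn)) hd

/-- few elements of a short interval are divisible by the square of a large number -/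
lemma nonsq_card (a h B z : ℕ) (hz : 1 ≤ z) (hB : 1 ≤ B) (hh : h * h ≤ a) :
    (((Ioc a (a + h)).filter (fun n => ∃ p, z ≤ p ∧ p * p ∣ n)).card : ℝ) ≤
      2 * h / z + B + ((a + h : ℕ) : ℝ) / (B * B) + 1 := by
  set S := (Ioc a (a + h)).filter (fun n => ∃ p, z ≤ p ∧ p * p ∣ n) with hS
  set S1 := (Icc z B).biUnion (fun p => (Ioc a (a + h)).filter (fun n => p * p ∣ n)) with hS1
  set S2 := (Ioc a (a + h)).filter (fun n => ∃ p, B < p ∧ p * p ∣ n) with hS2
  have hsub : S ⊆ S1 ∪ S2 := by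
    intro n hn
    rw [hS, mem_filter] at hn
    obtain ⟨h1, p, h2, h3⟩ := hn
    rw [mem_union]
    rcases le_or_gt p B with h4 | h4
    · left
      rw [hS1, mem_biUnion]
      exact ⟨p, mem_Icc.2 ⟨h2, h4⟩, mem_filter.2 ⟨h1, h3⟩⟩
    · right
      rw [hS2, mem_filter]
      exact ⟨h1, p, h4, h3⟩
  have c1 : (S1.card : ℝ) ≤ 2 * h / z + B := by
    have e1 : S1.card ≤ ∑ p ∈ Icc z B, ((Ioc a (a + h)).filter (fun n => p * p ∣ n)).card :=
      card_biUnion_le
    have e2 : (S1.card : ℝ) ≤ ∑ p ∈ Icc z B, ((h : ℝ) * ((p : ℝ) ^ 2)⁻¹ + 1) := by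
      calc (S1.card : ℝ) ≤ ((∑ p ∈ Icc z B,
            ((Ioc a (a + h)).filter (fun n => p * p ∣ n)).card : ℕ) : ℝ) := by exact_mod_cast e1
        _ = ∑ p ∈ Icc z B, (((Ioc a (a + h)).filter (fun n => p * p ∣ n)).card : ℝ) := by
            push_cast; rfl
        _ ≤ _ := by
            refine sum_le_sum fun p hp => ?_
            rw [mem_Icc] at hp
            have hp1 : 1 ≤ p * p := Nat.mul_pos (by omega) (by omega)
            refine (mult_card' a h (p * p) hp1).trans (le_of_eq ?_)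
            push_cast
            rw [pow_two, div_eq_mul_inv]
    rw [sum_add_distrib, ← mul_sum] at e2
    have e3 : ∑ p ∈ Icc z B, ((p : ℝ) ^ 2)⁻¹ ≤ 2 / z := by
      have e4 := sum_Ioo_inv_sq_le (α := ℝ) (z - 1) (B + 1)
      have e5 : ((z - 1 : ℕ) : ℝ) + 1 = z := by
        rw [Nat.cast_sub hz]; push_cast; ring
      rw [e5] at e4
      refine le_trans (sum_le_sum_of_subset_of_nonneg ?_ ?_) e4
      · intro p hp
        rw [mem_Icc] at hp
        rw [mem_Ioo]
        omega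
      · intro p _ _
        positivity
    have e6 : ∑ p ∈ Icc z B, (1 : ℝ) ≤ B := by
      rw [sum_const, Nat.card_Icc, nsmul_eq_mul, mul_one]
      have : B + 1 - z ≤ B := by omega
      exact_mod_cast this
    have e7 : (h : ℝ) * ∑ p ∈ Icc z B, ((p : ℝ) ^ 2)⁻¹ ≤ h * (2 / z) :=
      mul_le_mul_of_nonneg_left e3 (Nat.cast_nonneg h)
    calc (S1.card : ℝ) ≤ _ := e2
      _ ≤ h * (2 / z) + B := by linarith
      _ = 2 * h / z + B := by ring
  have c2 : S2.card ≤ (a + h) / (B * B) + 1 := by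
    have hex : ∀ n : ℕ, n ∈ S2 → ∃ p, B < p ∧ p * p ∣ n := by
      intro n hn
      rw [hS2, mem_filter] at hn
      exact hn.2
    choose! f hf1 hf2 using hex
    have hBB : 0 < B * B := Nat.mul_pos hB hB
    rw [← card_range ((a + h) / (B * B) + 1)]
    refine Finset.card_le_card_of_injOn (fun n => n / (f n * f n)) ?_ ?_
    · intro n hn
      have hn' : n ∈ S2 := hn
      have h1 := hn'
      rw [hS2, mem_filter, mem_Ioc] at h1
      simp only [coe_range, Set.mem_Iio]
      have h2 : B * B ≤ f n * f n := Nat.mul_le_mul (hf1 n hn').le (hf1 n hn').le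
      have h3 := Nat.div_le_div h1.1.2 h2 hBB.ne'
      omega
    · intro n hn n' hn' heq
      have hn1 : n ∈ S2 := hn
      have hn2 : n' ∈ S2 := hn'
      simp only at heq
      have key : ∀ n n' : ℕ, n ∈ S2 → n' ∈ S2 → n / (f n * f n) = n' / (f n' * f n') →
          ¬ f n < f n' := by
        intro n n' hn hn' heq hlt
        obtain ⟨m, hm⟩ := hf2 n hn
        obtain ⟨m', hm'⟩ := hf2 n' hn'
        have hp : 0 < f n * f n := Nat.mul_pos (by have := hf1 n hn; omega) (by have := hf1 n hn; omega)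
        have hp' : 0 < f n' * f n' :=
          Nat.mul_pos (by have := hf1 n' hn'; omega) (by have := hf1 n' hn'; omega)
        have e1 : n / (f n * f n) = m := Nat.div_eq_of_eq_mul_right hp hm
        have e2 : n' / (f n' * f n') = m' := Nat.div_eq_of_eq_mul_right hp' hm'
        rw [e1, e2] at heq
        rw [← heq] at hm'
        rw [hS2, mem_filter, mem_Ioc] at hn hn'
        have hm0 : 1 ≤ m := by
          rcases Nat.eq_zero_or_pos m with h0 | h0
          · rw [h0, mul_zero] at hm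
            omega
          · exact h0
        set p := f n
        set p' := f n'
        have h3 : p + 1 ≤ p' := hlt
        have h4 : (p + 1) * (p + 1) * m ≤ n' := by
          rw [hm']
          exact Nat.mul_le_mul_right m (Nat.mul_le_mul h3 h3)
        have h5 : (p + 1) * (p + 1) * m = p * p * m + (2 * (p * m) + m) := by ring
        rw [h5, ← hm] at h4
        have h6 : 2 * (p * m) < h := by omega
        have h7 : p * p * m ≤ (p * m) * (p * m) := by
          have : (p * m) * (p * m) = p * p * m * m := by ring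
          rw [this]
          exact Nat.le_mul_of_pos_right _ hm0
        have h8 : (p * m) * (p * m) ≤ h * h := Nat.mul_le_mul (by omega) (by omega)
        have h9 : n ≤ a := by
          rw [hm]
          exact h7.trans (h8.trans hh)
        omega
      rcases lt_trichotomy (f n) (f n') with h1 | h1 | h1
      · exact absurd h1 (key n n' hn1 hn2 heq)
      · obtain ⟨m, hm⟩ := hf2 n hn1
        obtain ⟨m', hm'⟩ := hf2 n' hn2
        rw [← Nat.div_mul_cancel (hf2 n hn1), ← Nat.div_mul_cancel (hf2 n' hn2), heq, h1]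
      · exact absurd h1 (key n' n hn2 hn1 heq.symm)
  have c3 : (S.card : ℝ) ≤ S1.card + S2.card := by
    have : S.card ≤ S1.card + S2.card := (card_le_card hsub).trans (card_union_le _ _)
    exact_mod_cast this
  have c4 : (S2.card : ℝ) ≤ ((a + h : ℕ) : ℝ) / (B * B) + 1 := by
    calc (S2.card : ℝ) ≤ (((a + h) / (B * B) + 1 : ℕ) : ℝ) := by exact_mod_cast c2
      _ ≤ ((a + h : ℕ) : ℝ) / (B * B) + 1 := by
          push_cast
          have := @Nat.cast_div_le ℝ _ _ _ (a + h) (B * B)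
          push_cast at this
          linarith
  linarith

/-- many primes up to `Y` -/
lemma pi_low (Y : ℕ) (hY : 65536 ≤ Y) : (Y : ℝ) / (2 * Real.log Y) ≤ Nat.primeCounting Y := by
  have hYr : (65536 : ℝ) ≤ Y := by exact_mod_cast hY
  have hlog : 0 < Real.log Y := Real.log_pos (by linarith)
  refine le_trans ?_ (Chebyshev.pi_ge Y)
  rw [div_le_div_iff₀ (by positivity) hlog]
  have h1 : Real.log ((Y : ℝ) + 1) ≤ 2 * Real.sqrt (Y + 1) := by
    have h2 : Real.log ((Y : ℝ) + 1) = 2 * Real.log (Real.sqrt (Y + 1)) := by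
      rw [Real.log_sqrt (by positivity)]
      ring
    rw [h2]
    have h3 : Real.log (Real.sqrt ((Y : ℝ) + 1)) ≤ Real.sqrt (Y + 1) :=
      Real.log_le_self (Real.sqrt_nonneg _)
    linarith
  have h4 : Real.sqrt ((Y : ℝ) + 1) ≤ Y / 100 := by
    rw [Real.sqrt_le_left (by positivity)]
    nlinarith
  have h5 : (0.69 : ℝ) ≤ Real.log 2 := by
    have := Real.log_two_gt_d9
    linarith
  have h6 : (Y : ℝ) / 2 ≤ Y * Real.log 2 - Real.log ((Y : ℝ) + 1) := by nlinarith
  nlinarith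

lemma log_small (Y : ℝ) (hY : 65536 ≤ Y) : 4 * Real.log Y ≤ Real.sqrt Y := by
  -- put `Y = u ^ 4`
  have h1 : Real.log Y = 4 * Real.log (Real.sqrt (Real.sqrt Y)) := by
    rw [Real.log_sqrt (Real.sqrt_nonneg _), Real.log_sqrt (by linarith)]
    ring
  set u := Real.sqrt (Real.sqrt Y) with hu
  have hu0 : 0 ≤ u := Real.sqrt_nonneg _
  have h2 : u * u = Real.sqrt Y := Real.mul_self_sqrt (Real.sqrt_nonneg _)
  have h3 : (16 : ℝ) ≤ u := by
    rw [hu]
    refine Real.le_sqrt_of_sq_le ?_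
    refine Real.le_sqrt_of_sq_le ?_
    norm_num
    exact hY
  have h4 : Real.log u ≤ u := Real.log_le_self hu0
  rw [h1, ← h2]
  nlinarith

end Pool.Agent.W544.MO
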