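import Pool.Agent.W544.MO.HoA

/-! MO-HO, part B: the fundamental lemma and the sums over small and middle primes. -/

set_option autoImplicit false

namespace Pool.Agent.W544.MO

open Pool.Agent.W76.MO Finset Filter Topology
open scoped Classical

/-- the fundamental lemma, with a lower bound of the density -/
theorem FL : ∃ s : ℕ, 1 ≤ s ∧ ∃ c0 : ℝ, 0 < c0 ∧ ∃ z1 : ℝ, 2 ≤ z1 ∧ ∀ r : ℝ, z1 ≤ r →
    ∃ V : ℝ, 0 < V ∧ c0 / Real.log r ≤ V ∧ ∀ A Y : ℕ, (r + 1) ^ s ≤ (Y : ℝ) →
      |(((Ioc A (A + Y)).filter (fun n => Rough r n)).card : ℝ) - V * Y| ≤ 1 / 10 * (V * Y) := by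
  obtain ⟨s, hs1, -, z₀, hz₀, hF⟩ := Pool.Agent.H154R3.Fund.fundLemma (1 / 10) (by norm_num)
  have hs0 : (0 : ℝ) < s := by exact_mod_cast hs1
  refine ⟨s, hs1, 1 / (20 * (s + 1)), by positivity, max 256 z₀,
    le_max_of_le_left (by norm_num), ?_⟩
  intro r hr
  have hr1 : (256 : ℝ) ≤ r := (le_max_left _ _).trans hr
  have hr2 : (z₀ : ℝ) ≤ r := (le_max_right _ _).trans hr
  set z : ℕ := ⌈r⌉₊ with hzdef
  have hz : (z : ℝ) ≤ r + 1 := (Nat.ceil_lt_add_one (by linarith)).le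
  have hz' : r ≤ z := Nat.le_ceil r
  have hz0 : z₀ ≤ z := by exact_mod_cast hr2.trans hz'
  have hz256 : 256 ≤ z := by exact_mod_cast hr1.trans hz'
  obtain ⟨V, hV0, -, hV⟩ := hF z hz0
  have hS : ∀ A Y : ℕ, z ^ s ≤ Y →
      |(((Ioc A (A + Y)).filter (fun n => Rough r n)).card : ℝ) - V * Y| ≤ 1 / 10 * (V * Y) := by
    intro A Y hY
    have h1 := hV A Y hY
    have h2 : |(((Ioc A (A + Y)).filter (fun n => Rough r n)).card : ℝ) - V * Y| ≤
        1 / 10 / (s : ℝ) ^ 8 * V * Y := by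
      simp only [rough_iff]
      convert h1
    refine h2.trans ?_
    have h3 : (1 : ℝ) ≤ (s : ℝ) ^ 8 := one_le_pow₀ (by exact_mod_cast hs1)
    have h4 : 1 / 10 / (s : ℝ) ^ 8 ≤ 1 / 10 := div_le_self (by norm_num) h3
    have h5 : 0 ≤ V * Y := by positivity
    calc 1 / 10 / (s : ℝ) ^ 8 * V * Y = 1 / 10 / (s : ℝ) ^ 8 * (V * Y) := by ring
      _ ≤ 1 / 10 * (V * Y) := mul_le_mul_of_nonneg_right h4 h5
  refine ⟨V, hV0, ?_, ?_⟩
  · -- lower bound of the density
    set Y : ℕ := z ^ (s + 1) with hY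
    have hYz : z ^ s ≤ Y := Nat.pow_le_pow_right (by omega) (by omega)
    have hYz2 : z ^ 2 ≤ Y := Nat.pow_le_pow_right (by omega) (by omega)
    have hY0 : 65536 ≤ Y := le_trans (by nlinarith) hYz2
    have hYr : (65536 : ℝ) ≤ Y := by exact_mod_cast hY0
    have hlogY : 0 < Real.log Y := Real.log_pos (by linarith)
    have h1 := hS 0 Y hYz
    rw [zero_add] at h1
    set S : ℝ := (((Ioc 0 Y).filter (fun n => Rough r n)).card : ℝ) with hSdef
    have h2 : S ≤ 11 / 10 * (V * Y) := by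
      have := (abs_le.1 h1).2
      linarith
    have h3 : (Nat.primeCounting Y : ℝ) ≤ z + S := by
      have e1 : Nat.primeCounting Y = ((range (Y + 1)).filter Nat.Prime).card := by
        rw [Nat.primeCounting, Nat.primeCounting', Nat.count_eq_card_filter_range]
      have e2 : (range (Y + 1)).filter Nat.Prime ⊆
          range z ∪ (Ioc 0 Y).filter (fun n => Rough r n) := by
        intro p hp
        rw [mem_filter, mem_range] at hp
        rw [mem_union, mem_range, mem_filter, mem_Ioc]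
        by_cases hpz : p < z
        · exact Or.inl hpz
        · right
          refine ⟨⟨hp.2.pos, by omega⟩, ?_⟩
          intro q hq hqp
          rw [(Nat.prime_dvd_prime_iff_eq hq hp.2).1 hqp]
          exact hz'.trans (by exact_mod_cast not_lt.1 hpz)
      have e3 := (card_le_card e2).trans (card_union_le _ _)
      rw [card_range, ← e1] at e3
      rw [hSdef]
      exact_mod_cast e3
    have h4 := pi_low Y hY0
    have h5 := log_small Y hYr
    have h6 : (z : ℝ) ≤ Real.sqrt Y := by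
      refine Real.le_sqrt_of_sq_le ?_
      exact_mod_cast hYz2
    have h7 : Real.sqrt Y ≤ Y / (4 * Real.log Y) := by
      rw [le_div_iff₀ (by positivity)]
      calc Real.sqrt Y * (4 * Real.log Y) ≤ Real.sqrt Y * Real.sqrt Y :=
            mul_le_mul_of_nonneg_left h5 (Real.sqrt_nonneg _)
        _ = Y := Real.mul_self_sqrt (by positivity)
    have h8 : (Y : ℝ) / (4 * Real.log Y) ≤ S := by
      have e : (Y : ℝ) / (2 * Real.log Y) = 2 * (Y / (4 * Real.log Y)) := by
        field_simp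
        norm_num
      rw [e] at h4
      linarith
    have h9 : 1 / (4 * Real.log Y) ≤ 11 / 10 * V := by
      have e := h8.trans h2
      have hYpos : (0 : ℝ) < Y := by linarith
      have e1 : (Y : ℝ) / (4 * Real.log Y) = 1 / (4 * Real.log Y) * Y := by ring
      rw [e1] at e
      have e2 : 11 / 10 * (V * Y) = 11 / 10 * V * Y := by ring
      rw [e2] at e
      exact le_of_mul_le_mul_right e hYpos
    have h10 : Real.log Y ≤ 2 * (s + 1) * Real.log r := by
      have e1 : Real.log Y = (s + 1) * Real.log z := by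
        rw [hY]
        push_cast
        rw [Real.log_pow]
        push_cast
        ring
      have e2 : Real.log z ≤ 2 * Real.log r := by
        have e3 : 2 * Real.log r = Real.log (r ^ 2) := by
          rw [Real.log_pow]; norm_num
        rw [e3]
        refine Real.log_le_log (by have : 0 < z := by omega
                                   exact_mod_cast this) ?_
        nlinarith
      rw [e1]
      nlinarith
    have hlogr : 0 < Real.log r := Real.log_pos (by linarith)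
    have h11 : 1 / (20 * ((s : ℝ) + 1)) / Real.log r ≤ 10 / 11 * (1 / (4 * Real.log Y)) := by
      rw [div_div, mul_one_div, div_le_div_iff₀ (by positivity) (by positivity)]
      nlinarith
    linarith
  · intro A Y hY
    refine hS A Y ?_
    have : ((z ^ s : ℕ) : ℝ) ≤ Y := by
      push_cast
      exact le_trans (pow_le_pow_left₀ (Nat.cast_nonneg _) hz s) hY
    exact_mod_cast this

lemma log_sqfree {n : ℕ} (hn : Squarefree n) :
    Real.log n = ∑ p ∈ n.primeFactors, Real.log p := by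
  have h1 := Nat.prod_primeFactors_of_squarefree hn
  conv_lhs => rw [← h1]
  push_cast
  rw [Real.log_prod]
  intro p hp
  have := (Nat.prime_of_mem_primeFactors hp).pos
  exact_mod_cast this.ne'

/-- the contribution of the small primes -/
lemma small_sum {r V : ℝ} {s a h : ℕ} (hV : 0 < V)
    (hFL : ∀ A Y : ℕ, (r + 1) ^ s ≤ (Y : ℝ) →
      |(((Ioc A (A + Y)).filter (fun n => Rough r n)).card : ℝ) - V * Y| ≤ 1 / 10 * (V * Y))
    (T : Finset ℕ) (hT : ∀ n ∈ T, n ∈ Ioc a (a + h) ∧ Rough r n) (P1 : ℕ) (hP1 : 1 ≤ P1)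
    (hr : 0 ≤ r)
    (h1 : (r + 1) ^ s * P1 ≤ h) (h2 : 11 * (P1 : ℝ) ≤ h) {K : ℝ}
    (hK : ∀ N : ℕ, 1 ≤ N →
      |∑ q ∈ (Icc 1 N).filter Nat.Prime, Real.log q / q - Real.log N| ≤ K) :
    ∑ n ∈ T, ∑ p ∈ n.primeFactors.filter (fun p => p ≤ P1), Real.log p ≤
      6 / 5 * V * h * (Real.log P1 + K) := by
  set PR := (Icc 1 P1).filter Nat.Prime with hPR
  have hP1r : (0 : ℝ) < P1 := by exact_mod_cast hP1
  have e1 : ∑ n ∈ T, ∑ p ∈ n.primeFactors.filter (fun p => p ≤ P1), Real.log p ≤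
      ∑ n ∈ T, ∑ p ∈ PR, if p ∣ n then Real.log p else 0 := by
    refine sum_le_sum fun n _ => ?_
    rw [← sum_filter]
    refine sum_le_sum_of_subset_of_nonneg ?_ ?_
    · intro p hp
      rw [mem_filter, Nat.mem_primeFactors] at hp
      rw [mem_filter, hPR, mem_filter, mem_Icc]
      exact ⟨⟨⟨hp.1.1.pos, hp.2⟩, hp.1.1⟩, hp.1.2.1⟩
    · intro p _ _
      exact Real.log_natCast_nonneg p
  have e2 : ∑ n ∈ T, ∑ p ∈ PR, (if p ∣ n then Real.log (p : ℝ) else 0) =
      ∑ p ∈ PR, Real.log p * ((T.filter (fun n => p ∣ n)).card : ℝ) := by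
    rw [sum_comm]
    refine sum_congr rfl fun p _ => ?_
    rw [← sum_filter, sum_const, nsmul_eq_mul, mul_comm]
  have e3 : ∀ p ∈ PR, ((T.filter (fun n => p ∣ n)).card : ℝ) ≤ 6 / 5 * V * (h / p) := by
    intro p hp
    rw [hPR, mem_filter, mem_Icc] at hp
    have hp0 : (0 : ℝ) < p := by exact_mod_cast hp.1.1
    have hpP : (p : ℝ) ≤ P1 := by exact_mod_cast hp.1.2
    have f1 : (T.filter (fun n => p ∣ n)).card ≤
        ((Ioc a (a + h)).filter (fun n => p ∣ n ∧ Rough r n)).card := by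
      refine card_le_card ?_
      intro n hn
      rw [mem_filter] at hn ⊢
      exact ⟨(hT n hn.1).1, hn.2, (hT n hn.1).2⟩
    have f2 := mult_card a h p hp.1.1 (fun n => Rough r n)
    have f3 : ((Ioc (a / p) (a / p + (h / p + 1))).filter (fun m => Rough r (p * m))).card ≤
        ((Ioc (a / p) (a / p + (h / p + 1))).filter (fun m => Rough r m)).card := by
      refine card_le_card ?_
      intro m hm
      rw [mem_filter] at hm ⊢
      exact ⟨hm.1, rough_dvd hm.2 (dvd_mul_left _ _)⟩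
    have f4 : (h : ℝ) / p ≤ ((h / p + 1 : ℕ) : ℝ) := by
      rw [div_le_iff₀ hp0]
      have := Nat.lt_mul_div_succ h hp.1.1
      have h' : h ≤ (h / p + 1) * p := by rw [mul_comm]; exact this.le
      exact_mod_cast h'
    have f5 : (r + 1) ^ s ≤ ((h / p + 1 : ℕ) : ℝ) := by
      refine le_trans ?_ f4
      rw [le_div_iff₀ hp0]
      exact le_trans (mul_le_mul_of_nonneg_left hpP (by positivity)) h1
    have f6 := (abs_le.1 (hFL (a / p) (h / p + 1) f5)).2
    have f7 : ((h / p + 1 : ℕ) : ℝ) ≤ 12 / 11 * (h / p) := by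
      push_cast
      have g1 := @Nat.cast_div_le ℝ _ _ _ h p
      have g2 : (11 : ℝ) ≤ h / p := by
        rw [le_div_iff₀ hp0]
        exact le_trans (mul_le_mul_of_nonneg_left hpP (by norm_num)) h2
      linarith
    have f8 : ((T.filter (fun n => p ∣ n)).card : ℝ) ≤
        (((Ioc (a / p) (a / p + (h / p + 1))).filter (fun m => Rough r m)).card : ℝ) := by
      exact_mod_cast f1.trans (f2.trans f3)
    have f9 : V * ((h / p + 1 : ℕ) : ℝ) ≤ V * (12 / 11 * (h / p)) :=
      mul_le_mul_of_nonneg_left f7 hV.le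
    calc ((T.filter (fun n => p ∣ n)).card : ℝ) ≤ 11 / 10 * (V * ((h / p + 1 : ℕ) : ℝ)) := by
          linarith
      _ ≤ 11 / 10 * (V * (12 / 11 * (h / p))) := by linarith
      _ = 6 / 5 * V * (h / p) := by ring
  have e4 : ∑ p ∈ PR, Real.log p * ((T.filter (fun n => p ∣ n)).card : ℝ) ≤
      ∑ p ∈ PR, 6 / 5 * V * h * (Real.log p / p) := by
    refine sum_le_sum fun p hp => ?_
    calc Real.log p * ((T.filter (fun n => p ∣ n)).card : ℝ) ≤ Real.log p * (6 / 5 * V * (h / p)) :=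
          mul_le_mul_of_nonneg_left (e3 p hp) (Real.log_natCast_nonneg p)
      _ = 6 / 5 * V * h * (Real.log p / p) := by ring
  rw [← mul_sum] at e4
  have e5 : ∑ p ∈ PR, Real.log p / p ≤ Real.log P1 + K := by
    have := (abs_le.1 (hK P1 hP1)).2
    linarith
  calc _ ≤ _ := e1
    _ = _ := e2
    _ ≤ _ := e4
    _ ≤ _ := mul_le_mul_of_nonneg_left e5 (by positivity)

/-- the contribution of the primes of middle size -/
lemma mid_sum {r : ℝ} {a h i : ℕ} (T : Finset ℕ)
    (hT : ∀ n ∈ T, n ∈ Ioc a (a + h) ∧ Rough r n ∧ n ≤ 2 ^ (i + 2)) (lo hi : ℕ) {M : ℝ}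
    (Pr : ℕ → Prop) [DecidablePred Pr]
    (hPr : ∀ p : ℕ, p.Prime → Pr p → ∃ j ∈ Icc lo hi, 2 ^ j < p ∧ p ≤ 2 ^ (j + 1))
    (hM : ∀ j ∈ Icc lo hi,
      ((((Ioc (2 ^ j) (2 * 2 ^ j)) ×ˢ (range (2 ^ (i + 2)))).filter (fun u : ℕ × ℕ => u.1.Prime ∧
        a < u.1 * u.2 ∧ u.1 * u.2 ≤ a + h ∧ Rough r u.2)).card : ℝ) ≤ M) :
    ∑ n ∈ T, ∑ p ∈ n.primeFactors.filter Pr, Real.log p ≤
      ((i + 2) * Real.log 2) * (((Icc lo hi).card : ℝ) * M) := by
  set MR : ℕ → Finset (ℕ × ℕ) := fun j =>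
    ((Ioc (2 ^ j) (2 * 2 ^ j)) ×ˢ (range (2 ^ (i + 2)))).filter (fun u : ℕ × ℕ => u.1.Prime ∧
        a < u.1 * u.2 ∧ u.1 * u.2 ≤ a + h ∧ Rough r u.2) with hMR
  have hlog2 : 0 < Real.log 2 := Real.log_pos (by norm_num)
  have e1 : ∀ n ∈ T, ∑ p ∈ n.primeFactors.filter Pr, Real.log (p : ℝ) ≤
      ((i + 2) * Real.log 2) * ((n.primeFactors.filter Pr).card : ℝ) := by
    intro n hn
    have h1 : ∀ p ∈ n.primeFactors.filter Pr, Real.log (p : ℝ) ≤ (i + 2) * Real.log 2 := by
      intro p hp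
      rw [mem_filter, Nat.mem_primeFactors] at hp
      have h2 : p ≤ 2 ^ (i + 2) := (Nat.le_of_dvd (Nat.pos_of_ne_zero hp.1.2.2) hp.1.2.1).trans
        (hT n hn).2.2
      have h3 : (p : ℝ) ≤ 2 ^ (i + 2) := by exact_mod_cast h2
      have h4 := Real.log_le_log (by exact_mod_cast hp.1.1.pos) h3
      rw [Real.log_pow] at h4
      push_cast at h4
      exact h4
    have h5 := sum_le_card_nsmul _ _ _ h1
    rw [nsmul_eq_mul] at h5
    rw [mul_comm]
    exact h5
  have e2 : (T.sigma (fun n => n.primeFactors.filter Pr)).card ≤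
      ((Icc lo hi).biUnion MR).card := by
    refine Finset.card_le_card_of_injOn (fun u => (u.2, u.1 / u.2)) ?_ ?_
    · rintro ⟨n, p⟩ hu
      rw [mem_coe, mem_sigma, mem_filter, Nat.mem_primeFactors] at hu
      obtain ⟨hn, ⟨hp, hpn, hn0⟩, hPrp⟩ := hu
      simp only at hn hp hpn hn0 hPrp
      obtain ⟨j, hj, hj1, hj2⟩ := hPr p hp hPrp
      obtain ⟨t1, t2, t3⟩ := hT n hn
      rw [mem_Ioc] at t1
      rw [mem_coe, mem_biUnion]
      refine ⟨j, hj, ?_⟩
      rw [hMR, mem_filter, mem_product, mem_Ioc, mem_range]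
      have hmul : p * (n / p) = n := Nat.mul_div_cancel' hpn
      have hj3 : p ≤ 2 * 2 ^ j := by rw [pow_succ] at hj2; omega
      refine ⟨⟨⟨hj1, hj3⟩, ?_⟩, hp, ?_, ?_, ?_⟩
      · exact lt_of_lt_of_le (Nat.div_lt_self (Nat.pos_of_ne_zero hn0) hp.one_lt) t3
      · simp only
        rw [hmul]
        exact t1.1
      · simp only
        rw [hmul]
        exact t1.2
      · exact rough_dvd t2 (Nat.div_dvd_of_dvd hpn)
    · rintro ⟨n, p⟩ hu ⟨n', p'⟩ hu' heq
      rw [mem_coe, mem_sigma, mem_filter, Nat.mem_primeFactors] at hu hu'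
      obtain ⟨hn, ⟨hp, hpn, hn0⟩, hPrp⟩ := hu
      obtain ⟨hn', ⟨hp', hpn', hn0'⟩, hPrp'⟩ := hu'
      simp only [Prod.mk.injEq] at heq hp hpn hpn' ⊢
      obtain ⟨rfl, h2⟩ := heq
      have h3 : n = n' := by
        rw [← Nat.mul_div_cancel' hpn, h2, Nat.mul_div_cancel' hpn']
      subst h3
      rfl
  have e3 : ((T.sigma (fun n => n.primeFactors.filter Pr)).card : ℝ) ≤
      ((Icc lo hi).card : ℝ) * M := by
    calc ((T.sigma (fun n => n.primeFactors.filter Pr)).card : ℝ) ≤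
        ((∑ j ∈ Icc lo hi, (MR j).card : ℕ) : ℝ) := by exact_mod_cast e2.trans card_biUnion_le
      _ = ∑ j ∈ Icc lo hi, ((MR j).card : ℝ) := by push_cast; rfl
      _ ≤ (Icc lo hi).card • M := sum_le_card_nsmul _ _ _ hM
      _ = _ := nsmul_eq_mul _ _
  rw [card_sigma] at e3
  push_cast at e3
  calc ∑ n ∈ T, ∑ p ∈ n.primeFactors.filter Pr, Real.log (p : ℝ) ≤
        ∑ n ∈ T, ((i + 2) * Real.log 2) * ((n.primeFactors.filter Pr).card : ℝ) :=
        sum_le_sum e1
    _ = ((i + 2) * Real.log 2) * ∑ n ∈ T, ((n.primeFactors.filter Pr).card : ℝ) := by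
        rw [mul_sum]
    _ ≤ _ := mul_le_mul_of_nonneg_left e3 (by positivity)

end Pool.Agent.W544.MO
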